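import Mathlib

/-!
Combinatorial part: selections from omega-covers with the groups property, and the two
compactness statements.
-/

set_option autoImplicit false

namespace Pool.Agent.W634.RG

open Set Topology

/-- the rational interval with code `q` -/
def I (q : ℚ × ℚ) : Set ℝ := Ioo (q.1 : ℝ) (q.2 : ℝ)

theorem isOpen_I (q : ℚ × ℚ) : IsOpen (I q) := isOpen_Ioo

theorem exists_I {O : Set ℝ} (hO : IsOpen O) {x : ℝ} (hx : x ∈ O) :
    ∃ q : ℚ × ℚ, x ∈ I q ∧ I q ⊆ O := by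
  obtain ⟨a, b, hab, h⟩ := (mem_nhds_iff_exists_Ioo_subset (a := x) (s := O)).1 (hO.mem_nhds hx)
  obtain ⟨p, hp1, hp2⟩ := exists_rat_btwn hab.1
  obtain ⟨q, hq1, hq2⟩ := exists_rat_btwn hab.2
  exact ⟨(p, q), ⟨hp2, hq1⟩, fun y hy => h ⟨hp1.trans hy.1, hy.2.trans hq2⟩⟩

theorem nonempty_I {q : ℚ × ℚ} (hq : q.1 < q.2) : (I q).Nonempty :=
  nonempty_Ioo.2 (Rat.cast_lt.2 hq)

/-- `W` has a point `x` in the interval `I q` with `z - x ∈ W`. -/
def Hit (W : Set ℝ) (q : ℚ × ℚ) (z : ℝ) : Prop := ∃ x ∈ I q, x ∈ W ∧ z - x ∈ W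

theorem Hit.mono {W W' : Set ℝ} (h : W ⊆ W') {q : ℚ × ℚ} {z : ℝ} (hh : Hit W q z) :
    Hit W' q z := by
  obtain ⟨x, h1, h2, h3⟩ := hh
  exact ⟨x, h1, h h2, h h3⟩

theorem isOpen_hit {W : Set ℝ} (hW : IsOpen W) (q : ℚ × ℚ) : IsOpen {z | Hit W q z} := by
  have : {z | Hit W q z} = ⋃ x ∈ I q ∩ W, {z | z - x ∈ W} := by
    ext z
    simp only [Hit, mem_ofPred_eq, mem_iUnion, exists_prop, mem_inter_iff, and_assoc]
  rw [this]
  exact isOpen_biUnion fun x _ => hW.preimage (continuous_id.sub continuous_const)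

theorem hit_of_dense {D : Set ℝ} (hD : IsOpen D) (hD2 : Dense D) {q : ℚ × ℚ} (hq : q.1 < q.2)
    (z : ℝ) : Hit D q z := by
  have h1 : Dense {x | z - x ∈ D} := by
    have : {x | z - x ∈ D} = (Homeomorph.subLeft z) ⁻¹' D := by
      ext x; simp
    rw [this]
    exact hD2.preimage (Homeomorph.subLeft z).isOpenMap
  have h2 : IsOpen {x | z - x ∈ D} := hD.preimage (continuous_const.sub continuous_id)
  have h3 : Dense (D ∩ {x | z - x ∈ D}) := hD2.inter_of_isOpen_left h1 hD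
  obtain ⟨x, hx1, hx2⟩ := h3.inter_open_nonempty _ (isOpen_I q) (nonempty_I hq)
  exact ⟨x, hx1, hx2.1, hx2.2⟩

/-- finite stage of a union -/
def St (U : ℕ → Set ℝ) (m N : ℕ) : Set ℝ := ⋃ n ∈ Ico m N, U n

theorem mem_St {U : ℕ → Set ℝ} {m N : ℕ} {x : ℝ} : x ∈ St U m N ↔ ∃ n, m ≤ n ∧ n < N ∧ x ∈ U n := by
  simp only [St, mem_iUnion, mem_Ico, exists_prop, and_assoc]

theorem St_mono {U : ℕ → Set ℝ} {m N N' : ℕ} (h : N ≤ N') : St U m N ⊆ St U m N' := by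
  intro x hx
  obtain ⟨n, h1, h2, h3⟩ := mem_St.1 hx
  exact mem_St.2 ⟨n, h1, h2.trans_le h, h3⟩

theorem isOpen_St {U : ℕ → Set ℝ} (hU : ∀ n, IsOpen (U n)) (m N : ℕ) : IsOpen (St U m N) :=
  isOpen_biUnion fun n _ => hU n

theorem exists_stage {U : ℕ → Set ℝ} (hU : ∀ n, IsOpen (U n))
    (hd : ∀ m, Dense (⋃ n, ⋃ _ : m ≤ n, U n)) (m : ℕ) {q : ℚ × ℚ} (hq : q.1 < q.2) :
    ∃ N, ∀ N' ≥ N, ∀ z ∈ Icc (0 : ℝ) 1, Hit (St U m N') q z := by
  have hc : IsCompact (Icc (0 : ℝ) 1) := isCompact_Icc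
  have hdir : Directed (· ⊆ ·) fun N : ℕ => {z | Hit (St U m N) q z} := by
    apply Monotone.directed_le
    intro N N' h z hz
    exact Hit.mono (St_mono h) hz
  have hcov : Icc (0 : ℝ) 1 ⊆ ⋃ N, {z | Hit (St U m N) q z} := by
    intro z _
    have hopen : IsOpen (⋃ n, ⋃ _ : m ≤ n, U n) := isOpen_iUnion fun n => isOpen_iUnion fun _ => hU n
    obtain ⟨x, h1, h2, h3⟩ := hit_of_dense hopen (hd m) hq z
    simp only [mem_iUnion, exists_prop] at h2 h3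
    obtain ⟨i, hi, h2⟩ := h2
    obtain ⟨j, hj, h3⟩ := h3
    refine mem_iUnion.2 ⟨max i j + 1, x, h1, mem_St.2 ⟨i, hi, ?_, h2⟩, mem_St.2 ⟨j, hj, ?_, h3⟩⟩
    · exact Nat.lt_succ_of_le (le_max_left _ _)
    · exact Nat.lt_succ_of_le (le_max_right _ _)
  obtain ⟨N, hN⟩ := hc.elim_directed_cover _ (fun N => isOpen_hit (isOpen_St hU m N) q) hcov hdir
  exact ⟨N, fun N' h z hz => Hit.mono (St_mono h) (hN hz)⟩

/-- `f` selects from the families `W n` and `b` are the break points of the groups. -/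
structure Good (W : ℕ → ℕ → Set ℝ) (A : Set ℝ) (f b : ℕ → ℕ) : Prop where
  b0 : b 0 = 0
  bm : StrictMono b
  inj : ∀ n m, n ≠ m → W n (f n) ∩ A ≠ W m (f m) ∩ A
  pts : ∀ a ∈ A, ∃ k0, ∀ k ≥ k0, a ∈ St (fun n => W n (f n)) (b k) (b (k + 1))
  hit : ∀ q : ℚ × ℚ, q.1 < q.2 → ∃ k0, ∀ k ≥ k0, ∀ z ∈ Icc (0 : ℝ) 1,
    Hit (St (fun n => W n (f n)) (b k) (b (k + 1))) q z

theorem exists_select {W : ℕ → ℕ → Set ℝ} {A : Set ℝ} (a : ℕ → ℝ) (ha : range a = A)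
    (h1 : ∀ n, ∀ E : Finset ℝ, (E : Set ℝ) ⊆ A → ∃ i, (E : Set ℝ) ⊆ W n i)
    (h2 : ∀ n i, ¬ A ⊆ W n i) (e : ℕ → ℕ) :
    ∃ f : ℕ → ℕ, (∀ n, a (e n) ∈ W n (f n)) ∧ ∀ n m, n ≠ m → W n (f n) ∩ A ≠ W m (f m) ∩ A := by
  classical
  choose p hp using fun n i => not_subset.1 (h2 n i)
  -- strong recursion
  have key : ∀ n (g : ℕ → ℕ), ∃ i, a (e n) ∈ W n i ∧ ∀ m < n, p m (g m) ∈ W n i := by
    intro n g
    obtain ⟨i, hi⟩ := h1 n (insert (a (e n)) ((Finset.range n).image fun m => p m (g m))) (by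
      intro y hy
      simp only [Finset.coe_insert, Finset.coe_image, Finset.coe_range, mem_insert_iff,
        mem_image, mem_Iio] at hy
      rcases hy with rfl | ⟨m, _, rfl⟩
      · exact ha ▸ mem_range_self _
      · exact (hp m (g m)).1)
    refine ⟨i, hi (by simp), fun m hm => hi ?_⟩
    simp only [Finset.coe_insert, Finset.coe_image, Finset.coe_range, mem_insert_iff,
        mem_image, mem_Iio]
    exact Or.inr ⟨m, hm, rfl⟩
  choose F hF1 hF2 using key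
  let f : ℕ → ℕ := fun n => Nat.strongRec (motive := fun _ => ℕ)
    (fun n prev => F n (fun m => if h : m < n then prev m h else 0)) n
  have hf : ∀ n, f n = F n (fun m => if m < n then f m else 0) := by
    intro n
    show Nat.strongRec (motive := fun _ => ℕ) _ n = _
    rw [Nat.strongRec]
    congr 1
  refine ⟨f, fun n => ?_, ?_⟩
  · rw [hf n]; exact hF1 n _
  · have hlt : ∀ n m, m < n → W n (f n) ∩ A ≠ W m (f m) ∩ A := by
      intro n m hmn heq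
      have h3 := hF2 n (fun m => if m < n then f m else 0) m hmn
      rw [← hf n] at h3
      simp only [hmn, if_true] at h3
      have h4 : p m (f m) ∈ W m (f m) ∩ A := heq ▸ ⟨h3, (hp m (f m)).1⟩
      exact (hp m (f m)).2 h4.1
    intro n m hnm
    rcases lt_or_gt_of_ne hnm with h | h
    · exact (hlt m n h).symm
    · exact hlt n m h

theorem exists_good {W : ℕ → ℕ → Set ℝ} {A : Set ℝ} (hW : ∀ n i, IsOpen (W n i))
    (hA : A.Countable) (hA2 : Dense A)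
    (h1 : ∀ n, ∀ E : Finset ℝ, (E : Set ℝ) ⊆ A → ∃ i, (E : Set ℝ) ⊆ W n i)
    (h2 : ∀ n i, ¬ A ⊆ W n i) : ∃ f b, Good W A f b := by
  classical
  obtain ⟨a, ha⟩ := hA.exists_eq_range hA2.nonempty
  obtain ⟨f, hf1, hf2⟩ := exists_select a ha.symm h1 h2 (fun n => (Nat.unpair n).1)
  set U : ℕ → Set ℝ := fun n => W n (f n) with hUdef
  have hU : ∀ n, IsOpen (U n) := fun n => hW _ _
  have hrec : ∀ i m, ∃ n ≥ m, a i ∈ U n := by
    intro i m
    refine ⟨Nat.pair i m, Nat.right_le_pair i m, ?_⟩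
    have := hf1 (Nat.pair i m)
    simpa [Nat.unpair_pair] using this
  have hd : ∀ m, Dense (⋃ n, ⋃ _ : m ≤ n, U n) := by
    intro m
    refine hA2.mono ?_
    intro y hy
    rw [ha] at hy
    obtain ⟨i, rfl⟩ := hy
    obtain ⟨n, hn, h⟩ := hrec i m
    exact mem_iUnion.2 ⟨n, mem_iUnion.2 ⟨hn, h⟩⟩
  obtain ⟨qs, hqs⟩ := exists_surjective_nat (ℚ × ℚ)
  have hstage : ∀ m k, ∃ N > m, (∀ i ≤ k, a i ∈ St U m N) ∧
      ∀ i ≤ k, (qs i).1 < (qs i).2 → ∀ z ∈ Icc (0 : ℝ) 1, Hit (St U m N) (qs i) z := by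
    intro m k
    have h3 : ∀ i, ∃ N, (qs i).1 < (qs i).2 → ∀ N' ≥ N, ∀ z ∈ Icc (0 : ℝ) 1,
        Hit (St U m N') (qs i) z := by
      intro i
      by_cases hq : (qs i).1 < (qs i).2
      · obtain ⟨N, hN⟩ := exists_stage hU hd m hq
        exact ⟨N, fun _ => hN⟩
      · exact ⟨0, fun h => absurd h hq⟩
    choose N1 hN1 using h3
    have h4 : ∀ i, ∃ n ≥ m, a i ∈ U n := fun i => hrec i m
    choose N2 hN2 hN3 using h4
    refine ⟨(m + 1) + ((Finset.range (k + 1)).sup N1 + ((Finset.range (k + 1)).sup N2 + 1)),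
      by omega, ?_, ?_⟩
    · intro i hi
      refine mem_St.2 ⟨N2 i, hN2 i, ?_, hN3 i⟩
      have := Finset.le_sup (f := N2) (Finset.mem_range.2 (show i < k + 1 by omega))
      omega
    · intro i hi hq z hz
      refine hN1 i hq _ ?_ z hz
      have := Finset.le_sup (f := N1) (Finset.mem_range.2 (show i < k + 1 by omega))
      omega
  choose g hg1 hg2 hg3 using hstage
  let b : ℕ → ℕ := fun k => Nat.rec 0 (fun k m => g m k) k
  have hb : ∀ k, b (k + 1) = g (b k) k := fun k => rfl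
  refine ⟨f, b, ⟨rfl, ?_, hf2, ?_, ?_⟩⟩
  · refine strictMono_nat_of_lt_succ fun k => ?_
    rw [hb]; exact hg1 _ _
  · intro y hy
    rw [ha] at hy
    obtain ⟨i, rfl⟩ := hy
    refine ⟨i, fun k hk => ?_⟩
    rw [hb]
    exact hg2 (b k) k i hk
  · intro q hq
    obtain ⟨i, rfl⟩ := hqs q
    refine ⟨i, fun k hk z hz => ?_⟩
    rw [hb]
    exact hg3 (b k) k i hk hq z hz

end Pool.Agent.W634.RG
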