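import Pool.Agent.W634.RG.Comb
import Pool.Agent.Helper185.SelDefs

/-!
A set of reals with `[0,1] ⊆ X + X` does not satisfy `S₁(Ω, Ω)`.
-/

set_option autoImplicit false

namespace Pool.Agent.W634.RG

open Set Topology MeasureTheory
open scoped Pointwise ENNReal
open Pool.Agent.Helper185.Sel

theorem not_s1_omega {X : Set ℝ} (hX : ∀ t ∈ Icc (0 : ℝ) 1, ∃ a ∈ X, ∃ b ∈ X, a + b = t) :
    ¬ S1 (OmegaOf (OpenFam X)) (OmegaOf (OpenFam X)) := by
  classical
  intro hS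
  let ε : ℕ → ℝ≥0∞ := fun n => 2⁻¹ ^ (n + 2)
  have hε0 : ∀ n, ε n ≠ 0 := fun n => by simp [ε]
  have hε1 : ∀ n, ε n < 1 := by
    intro n
    have h1 : (2⁻¹ : ℝ≥0∞) < 1 := by simp
    calc ε n = 2⁻¹ ^ (n + 2) := rfl
      _ < 1 := pow_lt_one₀ bot_le h1 (by omega)
  let U : ℕ → Set (Set X) := fun n =>
    {u | ∃ V : Set ℝ, IsOpen V ∧ u = (↑) ⁻¹' V ∧ volume (V + V) ≤ ε n}
  have hvol : volume (Icc (0 : ℝ) 1) = 1 := by simp
  have hU : ∀ n, U n ∈ OmegaOf (OpenFam X) := by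
    intro n
    have homega : ∀ F : Set X, F.Finite → ∃ u ∈ U n, F ⊆ u := by
      intro F hF
      let E : Finset ℝ := hF.toFinset.image (↑)
      obtain ⟨r, hr0, hr⟩ : ∃ r : ℝ, 0 < r ∧ (E.card : ℝ≥0∞) * (E.card * ENNReal.ofReal (4 * r)) ≤ ε n := by
        have hc : Filter.Tendsto (fun r : ℝ => (E.card : ℝ≥0∞) * (E.card * ENNReal.ofReal (4 * r)))
            (𝓝[>] 0) (𝓝 ((E.card : ℝ≥0∞) * (E.card * ENNReal.ofReal (4 * 0)))) := by
          refine Filter.Tendsto.mono_left ?_ nhdsWithin_le_nhds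
          refine ENNReal.Tendsto.const_mul ?_ (Or.inr (ENNReal.natCast_ne_top _))
          refine ENNReal.Tendsto.const_mul ?_ (Or.inr (ENNReal.natCast_ne_top _))
          exact ENNReal.tendsto_ofReal ((continuous_const_mul (4 : ℝ)).tendsto 0)
        simp only [mul_zero, ENNReal.ofReal_zero] at hc
        have h1 := hc.eventually (gt_mem_nhds (pos_iff_ne_zero.2 (hε0 n)))
        obtain ⟨r, hr⟩ := (h1.and self_mem_nhdsWithin).exists
        exact ⟨r, hr.2, hr.1.le⟩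
      let V : Set ℝ := ⋃ x ∈ E, Ioo (x - r) (x + r)
      refine ⟨(↑) ⁻¹' V, ⟨V, isOpen_biUnion fun _ _ => isOpen_Ioo, rfl, ?_⟩, ?_⟩
      · have hsub : V + V ⊆ ⋃ x ∈ E, ⋃ y ∈ E, Ioo (x + y - 2 * r) (x + y + 2 * r) := by
          rintro _ ⟨s, hs, t, ht, rfl⟩
          simp only [V, mem_iUnion, exists_prop, mem_Ioo] at hs ht ⊢
          obtain ⟨x, hx, h1, h2⟩ := hs
          obtain ⟨y, hy, h3, h4⟩ := ht
          exact ⟨x, hx, y, hy, by linarith, by linarith⟩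
        calc volume (V + V) ≤ volume (⋃ x ∈ E, ⋃ y ∈ E, Ioo (x + y - 2 * r) (x + y + 2 * r)) :=
              measure_mono hsub
          _ ≤ ∑ x ∈ E, volume (⋃ y ∈ E, Ioo (x + y - 2 * r) (x + y + 2 * r)) :=
              measure_biUnion_finset_le _ _
          _ ≤ ∑ x ∈ E, ∑ y ∈ E, volume (Ioo (x + y - 2 * r) (x + y + 2 * r)) :=
              Finset.sum_le_sum fun x _ => measure_biUnion_finset_le _ _
          _ = ∑ x ∈ E, ∑ y ∈ E, ENNReal.ofReal (4 * r) := by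
              refine Finset.sum_congr rfl fun x _ => Finset.sum_congr rfl fun y _ => ?_
              rw [Real.volume_Ioo]
              congr 1
              ring
          _ = (E.card : ℝ≥0∞) * (E.card * ENNReal.ofReal (4 * r)) := by
              simp [Finset.sum_const, nsmul_eq_mul]
          _ ≤ ε n := hr
      · intro x hx
        have hxE : (x : ℝ) ∈ E := Finset.mem_image_of_mem _ (hF.mem_toFinset.2 hx)
        show (x : ℝ) ∈ V
        simp only [V, mem_iUnion, exists_prop, mem_Ioo]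
        exact ⟨x, hxE, by linarith, by linarith⟩
    refine ⟨?_, ⟨?_, ?_⟩, homega⟩
    · rintro u ⟨V, hV, rfl, -⟩
      exact hV.preimage continuous_subtype_val
    · refine eq_univ_of_forall fun x => ?_
      obtain ⟨u, hu, hx⟩ := homega {x} (finite_singleton x)
      exact ⟨u, hu, hx rfl⟩
    · rintro ⟨V, _, hV, hv⟩
      have hXV : X ⊆ V := fun x hx => by
        have : (⟨x, hx⟩ : X) ∈ (univ : Set X) := mem_univ _
        rw [hV] at this
        exact this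
      have h1 : Icc (0 : ℝ) 1 ⊆ V + V := by
        intro t ht
        obtain ⟨a, ha, b, hb, hab⟩ := hX t ht
        exact ⟨a, hXV ha, b, hXV hb, hab⟩
      have h2 : (1 : ℝ≥0∞) ≤ ε n := by
        rw [← hvol]
        exact (measure_mono h1).trans hv
      exact absurd h2 (not_le.2 (hε1 n))
  obtain ⟨v, hv, hvO⟩ := hS U hU
  choose V hV1 hV2 hV3 using hv
  have h1 : Icc (0 : ℝ) 1 ⊆ ⋃ n, (V n + V n) := by
    intro t ht
    obtain ⟨a, ha, b, hb, hab⟩ := hX t ht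
    obtain ⟨u, ⟨n, rfl⟩, hu⟩ := hvO.2.2 {⟨a, ha⟩, ⟨b, hb⟩} (by simp)
    have h2 : (⟨a, ha⟩ : X) ∈ v n := hu (by simp)
    have h3 : (⟨b, hb⟩ : X) ∈ v n := hu (by simp)
    rw [hV2 n] at h2 h3
    exact mem_iUnion.2 ⟨n, a, h2, b, h3, hab⟩
  have h2 : (1 : ℝ≥0∞) ≤ ∑' n, ε n := by
    rw [← hvol]
    exact (measure_mono h1).trans ((measure_iUnion_le _).trans (ENNReal.tsum_le_tsum hV3))
  have h3 : ∑' n, ε n = 2⁻¹ := by
    have h4 : ∀ n, ε n = 2⁻¹ ^ 2 * 2⁻¹ ^ n := fun n => by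
      show (2⁻¹ : ℝ≥0∞) ^ (n + 2) = _
      rw [pow_add, mul_comm]
    simp_rw [h4]
    rw [ENNReal.tsum_mul_left, ENNReal.tsum_geometric, ENNReal.one_sub_inv_two, inv_inv, pow_two,
      mul_assoc, ENNReal.inv_mul_cancel (by norm_num) (by norm_num), mul_one]
  rw [h3] at h2
  exact absurd h2 (by simp)

end Pool.Agent.W634.RG
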