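import Pool.Agent.W634.RG.Main
import Pool.Agent.W634.RG.Not

/-!
The counterexample under the continuum hypothesis.
-/

set_option autoImplicit false

namespace Pool.Agent.W634.RG

open Set Topology
open Pool.Agent.Helper292.ForceCH (Om countable_Iio exists_bound)
open Pool.Agent.Helper185.Sel

theorem exists_of_ch (hCH : Cardinal.aleph 1 = Cardinal.continuum.{0}) :
    ∃ X : Set ℝ, S1 (OmegaOf (OpenFam X)) (GroupableOf X) ∧
      ¬ S1 (OmegaOf (OpenFam X)) (OmegaOf (OpenFam X)) := by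
  have hOm : Cardinal.mk Om = Cardinal.continuum.{0} := by
    rw [← hCH]; simp
  have hC : Cardinal.mk (ℕ → ℕ → Set (ℚ × ℚ)) = Cardinal.continuum.{0} := by
    rw [Cardinal.mk_arrow, Cardinal.mk_arrow, Cardinal.mk_set]
    simp
  have hI : Cardinal.mk (Icc (0 : ℝ) 1) = Cardinal.continuum.{0} := Cardinal.mk_Icc_real one_pos
  obtain ⟨c⟩ := Cardinal.eq.1 (hOm.trans hC.symm)
  obtain ⟨e⟩ := Cardinal.eq.1 (hOm.trans hI.symm)
  obtain ⟨x, hx⟩ := exists_seq c (fun a => (e a : ℝ))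
  refine ⟨XX (fun a => (e a : ℝ)) x, s1_groupable c c.surjective _ x (fun a => (e a).2) hx, ?_⟩
  refine not_s1_omega fun t ht => ?_
  obtain ⟨a, ha⟩ := e.surjective ⟨t, ht⟩
  refine ⟨x a, Or.inr ⟨a, Or.inl rfl⟩, (e a : ℝ) - x a, Or.inr ⟨a, Or.inr rfl⟩, ?_⟩
  rw [ha]; ring

end Pool.Agent.W634.RG
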