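import Pool.Agent.W634.RG.Rec
import Pool.Agent.Helper185.SelDefs

/-!
The set constructed by recursion satisfies `S₁(Ω, O^ωgp)` and does not satisfy `S₁(Ω, Ω)`.
-/

set_option autoImplicit false

namespace Pool.Agent.W634.RG

open Set Topology MeasureTheory
open scoped Pointwise ENNReal
open Pool.Agent.Helper292.ForceCH (Om countable_Iio exists_bound)
open Pool.Agent.Helper185.Sel

/-- The omega-groupable open covers of `X`: open covers `U` (families of open sets with union `X`)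
which are the union of pairwise disjoint finite sets `F n`, `n ∈ ℕ`, such that every finite subset
of `X` is contained in `⋃₀ F n` for some `n`. -/
def GroupableOf (X : Type*) [TopologicalSpace X] : Set (Set (Set X)) :=
  {U | (∀ u ∈ U, IsOpen u) ∧ ⋃₀ U = univ ∧
    ∃ F : ℕ → Set (Set X), (∀ n, (F n).Finite) ∧ (∀ n m, n ≠ m → Disjoint (F n) (F m)) ∧
      (⋃ n, F n) = U ∧ ∀ E : Set X, E.Finite → ∃ n, E ⊆ ⋃₀ F n}

/-- traces of finite unions of rational intervals -/
theorem exists_countable_omega {X : Set ℝ} {U : Set (Set X)} (hU : U ∈ OmegaOf (OpenFam X)) :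
    ∃ u : ℕ → Set X, (∀ i, u i ∈ U) ∧ ∀ E : Set X, E.Finite → ∃ i, E ⊆ u i := by
  classical
  obtain ⟨u0, hu0, -⟩ := hU.2.2 ∅ finite_empty
  let T : Finset (ℚ × ℚ) → Set X := fun J => {x | ∃ q ∈ J, (x : ℝ) ∈ I q}
  let g : Finset (ℚ × ℚ) → Set X := fun J => if h : ∃ u ∈ U, T J ⊆ u then h.choose else u0
  have hg : ∀ J, g J ∈ U := by
    intro J
    by_cases h : ∃ u ∈ U, T J ⊆ u
    · simp only [g, h, dif_pos]; exact h.choose_spec.1
    · simp only [g, h, dif_neg, not_false_eq_true]; exact hu0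
  obtain ⟨e, he⟩ := exists_surjective_nat (Finset (ℚ × ℚ))
  refine ⟨fun i => g (e i), fun i => hg _, fun E hE => ?_⟩
  obtain ⟨v, hv, hEv⟩ := hU.2.2 E hE
  obtain ⟨O, hO, rfl⟩ := isOpen_induced_iff.1 (hU.1 v hv)
  have h1 : ∀ x : X, ∃ q : ℚ × ℚ, x ∈ E → (x : ℝ) ∈ I q ∧ I q ⊆ O := by
    intro x
    by_cases hx : x ∈ E
    · obtain ⟨q, hq⟩ := exists_I hO (hEv hx)
      exact ⟨q, fun _ => hq⟩
    · exact ⟨(0, 0), fun h => absurd h hx⟩
  choose q hq using h1
  let J : Finset (ℚ × ℚ) := hE.toFinset.image q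
  have hJ : ∃ u ∈ U, T J ⊆ u := by
    refine ⟨_, hv, ?_⟩
    rintro x ⟨p, hp, hx⟩
    obtain ⟨y, hy, rfl⟩ := Finset.mem_image.1 hp
    exact (hq y (hE.mem_toFinset.1 hy)).2 hx
  obtain ⟨i, hi⟩ := he J
  refine ⟨i, fun x hx => ?_⟩
  have h2 : g (e i) = hJ.choose := by
    rw [hi]; simp only [g, hJ, dif_pos]
  show x ∈ g (e i)
  rw [h2]
  refine hJ.choose_spec.2 ⟨q x, Finset.mem_image_of_mem _ (hE.mem_toFinset.2 hx), (hq x hx).1⟩

theorem s1_groupable (c : Om → ℕ → ℕ → Set (ℚ × ℚ)) (hc : Function.Surjective c) (z x : Om → ℝ)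
    (hz : ∀ a, z a ∈ Icc (0 : ℝ) 1) (hx : ∀ a, Req c z a x (x a)) :
    S1 (OmegaOf (OpenFam (XX z x))) (GroupableOf (XX z x)) := by
  classical
  intro U hU
  choose u hu1 hu2 using fun n => exists_countable_omega (hU n)
  -- codes
  obtain ⟨g, hg⟩ := hc (fun n i => {q | ∀ y : XX z x, (y : ℝ) ∈ I q → y ∈ u n i})
  have hW : ∀ n i (y : XX z x), (y : ℝ) ∈ Op (c g n i) ↔ y ∈ u n i := by
    intro n i y
    rw [hg]
    simp only [Op, mem_iUnion, exists_prop, mem_ofPred_eq]
    constructor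
    · rintro ⟨q, hq, hy⟩
      exact hq y hy
    · intro hy
      obtain ⟨O, hO, hOu⟩ := isOpen_induced_iff.1 ((hU n).1 _ (hu1 n i))
      have hy' : (y : ℝ) ∈ O := by rw [← hOu] at hy; exact hy
      obtain ⟨q, hq1, hq2⟩ := exists_I hO hy'
      refine ⟨q, fun w hw => ?_, hq1⟩
      rw [← hOu]
      exact hq2 hw
  -- points outside
  have hp : ∀ n i, ∃ p : XX z x, p ∉ u n i := by
    intro n i
    by_contra hcon
    push Not at hcon
    exact (hU n).2.1.2 ((eq_univ_of_forall hcon) ▸ hu1 n i)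
  choose p hp using hp
  have hidx : ∀ n i, ∃ b : Om, ∀ d, b < d → (p n i : ℝ) ∈ Before z x d := by
    intro n i
    rcases (p n i).2 with h | ⟨b, hb⟩
    · exact ⟨g, fun d _ => Or.inl h⟩
    · exact ⟨b, fun d hd => Or.inr ⟨b, hd, hb⟩⟩
  choose b0 hb0 using hidx
  obtain ⟨d, hd⟩ := exists_bound (fun n => if n = 0 then g else b0 (Nat.unpair (n - 1)).1 (Nat.unpair (n - 1)).2)
  have hgd : g < d := by simpa using hd 0
  have hbd : ∀ n i, b0 n i < d := by
    intro n i
    have := hd (Nat.pair n i + 1)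
    simpa using this
  -- the selection
  obtain ⟨f, b, hgood, hGr⟩ := exists_Gr (c := c g) (A := Before z x d)
    (exists_good (fun n i => isOpen_Op _) (countable_before z x d) (dense_before z x d)
      (by
        intro n E hE
        have hEX : (E : Set ℝ) ⊆ XX z x := hE.trans (before_subset z x d)
        obtain ⟨i, hi⟩ := hu2 n ((↑) ⁻¹' (E : Set ℝ))
          (E.finite_toSet.preimage Subtype.val_injective.injOn)
        refine ⟨i, fun y hy => ?_⟩
        exact (hW n i ⟨y, hEX hy⟩).2 (hi hy))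
      (by
        intro n i hsub
        exact hp n i ((hW n i (p n i)).1 (hsub (hb0 n i d (hbd n i))))))
  set V : ℕ → Set ℝ := fun k => St (fun n => Op (c g n (f n))) (b k) (b (k + 1)) with hV
  have hVo : ∀ k, IsOpen (V k) := fun k => isOpen_St (fun n => isOpen_Op _) _ _
  -- late points
  have late : ∀ S : Finset Om, (∀ β ∈ S, d ≤ β) →
      ∀ m, ∃ k ≥ m, ∀ β ∈ S, x β ∈ V k ∧ z β - x β ∈ V k := by
    intro S
    induction S using Finset.induction_on_max with
    | empty => intro _ m; exact ⟨m, le_rfl, by simp⟩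
    | insert β S hlt ih =>
      intro hS m
      have ih' := ih (fun β' h' => hS β' (Finset.mem_insert_of_mem h'))
      have hβ : d ≤ β := hS β (Finset.mem_insert_self _ _)
      have hdense : Dense (Rq z x (Gr (c g) (Before z x d)) (S : Set Om) m (z β)) := by
        rw [hGr]
        rw [dense_iff_inter_open]
        intro O hO ⟨y, hy⟩
        obtain ⟨q, hq1, hq2⟩ := exists_I hO hy
        have hq : q.1 < q.2 := Rat.cast_lt.1 (hq1.1.trans hq1.2)
        obtain ⟨k0, hk0⟩ := hgood.hit q hq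
        obtain ⟨k, hk, hkS⟩ := ih' (max m k0)
        obtain ⟨w, hw1, hw2, hw3⟩ := hk0 k ((le_max_right _ _).trans hk) (z β) (hz β)
        exact ⟨w, hq2 hw1, mem_Rq.2 ⟨k, (le_max_left _ _).trans hk, fun β' h' => hkS β' h', hw2, hw3⟩⟩
      have h1 := hx β g (hgd.trans_le hβ) d hβ S (fun β' h' => hlt β' h') m hdense
      rw [hGr] at h1
      obtain ⟨k, hk, hkS, h2, h3⟩ := mem_Rq.1 h1
      refine ⟨k, hk, fun β' h' => ?_⟩
      rcases Finset.mem_insert.1 h' with rfl | h'
      · exact ⟨h2, h3⟩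
      · exact hkS β' h'
  -- all finite sets
  have all : ∀ E : Finset ℝ, (E : Set ℝ) ⊆ XX z x → ∀ m, ∃ k ≥ m, (E : Set ℝ) ⊆ V k := by
    intro E hE m
    have h1 : ∀ y : ℝ, ∃ (k0 : ℕ) (β : Om), y ∈ E →
        (∀ k ≥ k0, y ∈ V k) ∨ (d ≤ β ∧ ∀ k, x β ∈ V k ∧ z β - x β ∈ V k → y ∈ V k) := by
      intro y
      by_cases hy : y ∈ E
      · by_cases hy2 : y ∈ Before z x d
        · obtain ⟨k0, hk0⟩ := hgood.pts y hy2
          exact ⟨k0, d, fun _ => Or.inl hk0⟩
        · rcases hE hy with h | ⟨β, hβ⟩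
          · exact absurd (Or.inl h) hy2
          · refine ⟨0, β, fun _ => Or.inr ⟨?_, ?_⟩⟩
            · by_contra hlt
              exact hy2 (Or.inr ⟨β, not_le.1 hlt, hβ⟩)
            · rintro k ⟨h1, h2⟩
              rcases hβ with h | h
              · rw [h]; exact h1
              · rw [h]; exact h2
      · exact ⟨0, d, fun h => absurd h hy⟩
    choose k0 β h1 using h1
    obtain ⟨k, hk, hkS⟩ := late ((E.image β).filter (fun γ => d ≤ γ))
      (fun γ h => (Finset.mem_filter.1 h).2) (max m (E.sup k0))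
    refine ⟨k, (le_max_left _ _).trans hk, fun y hy => ?_⟩
    rcases h1 y hy with h | ⟨h2, h3⟩
    · exact h k ((Finset.le_sup hy).trans ((le_max_right _ _).trans hk))
    · exact h3 k (hkS _ (Finset.mem_filter.2 ⟨Finset.mem_image_of_mem _ hy, h2⟩))
  -- conclusion
  let v : ℕ → Set (XX z x) := fun n => u n (f n)
  have hvinj : Function.Injective v := by
    intro n m h
    by_contra hnm
    apply hgood.inj n m hnm
    ext y
    simp only [mem_inter_iff]
    refine and_congr_left fun hy => ?_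
    have hyX := before_subset z x d hy
    rw [hW n (f n) ⟨y, hyX⟩, hW m (f m) ⟨y, hyX⟩]
    show (_ ∈ v n) ↔ (_ ∈ v m)
    rw [h]
  have hEk : ∀ E : Set (XX z x), E.Finite → ∃ k, E ⊆ ⋃₀ (v '' Ico (b k) (b (k + 1))) := by
    intro E hE
    obtain ⟨k, -, hk⟩ := all ((hE.image ((↑) : XX z x → ℝ)).toFinset) (by
      intro y hy
      simp only [Finite.coe_toFinset, mem_image] at hy
      obtain ⟨w, -, rfl⟩ := hy
      exact w.2) 0
    refine ⟨k, fun y hy => ?_⟩
    have h1 : (y : ℝ) ∈ V k := hk (by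
      simp only [Finite.coe_toFinset]
      exact mem_image_of_mem _ hy)
    obtain ⟨n, hn1, hn2, hn3⟩ := mem_St.1 h1
    exact ⟨v n, ⟨n, ⟨hn1, hn2⟩, rfl⟩, (hW n (f n) y).1 hn3⟩
  refine ⟨v, fun n => hu1 n _, ?_, ?_, fun k => v '' Ico (b k) (b (k + 1)), ?_, ?_, ?_, hEk⟩
  · rintro _ ⟨n, rfl⟩
    exact (hU n).1 _ (hu1 n _)
  · refine eq_univ_of_forall fun y => ?_
    obtain ⟨k, hk⟩ := hEk {y} (finite_singleton y)
    obtain ⟨w, ⟨n, _, rfl⟩, hw⟩ := hk rfl
    exact ⟨v n, ⟨n, rfl⟩, hw⟩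
  · intro k
    exact (finite_Ico _ _).image _
  · have hlt : ∀ n m, n < m → Disjoint (v '' Ico (b n) (b (n + 1))) (v '' Ico (b m) (b (m + 1))) := by
      intro n m hnm
      rw [disjoint_image_iff hvinj]
      have h1 : b (n + 1) ≤ b m := hgood.bm.monotone hnm
      rw [Set.disjoint_left]
      rintro i ⟨_, h2⟩ ⟨h3, _⟩
      omega
    intro n m hnm
    rcases lt_or_gt_of_ne hnm with h | h
    · exact hlt n m h
    · exact (hlt m n h).symm
  · ext w
    simp only [mem_iUnion, mem_image, mem_Ico, mem_range]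
    constructor
    · rintro ⟨k, n, _, rfl⟩
      exact ⟨n, rfl⟩
    · rintro ⟨n, rfl⟩
      have h1 : ∃ k, n < b (k + 1) := ⟨n, (hgood.bm.id_le (n + 1))⟩
      refine ⟨Nat.find h1, n, ⟨?_, Nat.find_spec h1⟩, rfl⟩
      rcases Nat.eq_zero_or_pos (Nat.find h1) with h0 | h0
      · rw [h0, hgood.b0]; exact Nat.zero_le _
      · have h2 := Nat.find_min h1 (Nat.sub_lt h0 one_pos)
        have h3 : Nat.find h1 - 1 + 1 = Nat.find h1 := by omega
        rw [h3] at h2
        exact not_lt.1 h2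

end Pool.Agent.W634.RG
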