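import Pool.Agent.W634.RG.Comb
import Pool.Agent.Helper292.ForceCH

/-!
The transfinite construction under the continuum hypothesis.
-/

set_option autoImplicit false

namespace Pool.Agent.W634.RG

open Set Topology
open Pool.Agent.Helper292.ForceCH (Om countable_Iio exists_bound)

universe u v

/-- definition by transfinite recursion from local requirements -/
theorem exists_rec {ι : Type u} [LinearOrder ι] [WellFoundedLT ι] {Y : Type v} [Nonempty Y]
    (R : ι → (ι → Y) → Y → Prop)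
    (hloc : ∀ a (x x' : ι → Y) y, (∀ b < a, x b = x' b) → R a x y → R a x' y)
    (hex : ∀ a x, ∃ y, R a x y) : ∃ x : ι → Y, ∀ a, R a x (x a) := by
  classical
  have key : ∀ a (prev : (b : ι) → b < a → Y),
      ∃ y, R a (fun b => if h : b < a then prev b h else Classical.arbitrary Y) y :=
    fun a prev => hex a _
  let x : ι → Y := WellFoundedLT.fix (motive := fun _ => Y) (fun a prev => (key a prev).choose)
  refine ⟨x, fun a => ?_⟩
  have hx : x a = (key a (fun b _ => x b)).choose :=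
    WellFoundedLT.fix_eq (motive := fun _ => Y) (fun a prev => (key a prev).choose) a
  have h := (key a (fun b _ => x b)).choose_spec
  rw [← hx] at h
  refine hloc a _ _ _ ?_ h
  intro b hb
  simp [hb]

/-- the points added before stage `d`, together with the rationals -/
def Before (z x : Om → ℝ) (d : Om) : Set ℝ :=
  range ((↑) : ℚ → ℝ) ∪ {y | ∃ b < d, y = x b ∨ y = z b - x b}

theorem before_congr {z x x' : Om → ℝ} {d : Om} (h : ∀ b < d, x b = x' b) :
    Before z x d = Before z x' d := by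
  ext y
  simp only [Before, mem_union, mem_ofPred_eq]
  refine or_congr Iff.rfl ?_
  constructor
  · rintro ⟨b, hb, h1⟩
    exact ⟨b, hb, by rwa [← h b hb]⟩
  · rintro ⟨b, hb, h1⟩
    exact ⟨b, hb, by rwa [h b hb]⟩

theorem countable_before (z x : Om → ℝ) (d : Om) : (Before z x d).Countable := by
  refine (countable_range _).union ?_
  have : {y | ∃ b < d, y = x b ∨ y = z b - x b} ⊆
      range (fun b : {b : Om // b < d} => x b.1) ∪ range (fun b : {b : Om // b < d} => z b.1 - x b.1) := by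
    rintro y ⟨b, hb, rfl | rfl⟩
    · exact Or.inl ⟨⟨b, hb⟩, rfl⟩
    · exact Or.inr ⟨⟨b, hb⟩, rfl⟩
  have := countable_Iio d
  exact ((countable_range _).union (countable_range _)).mono ‹_›

theorem dense_before (z x : Om → ℝ) (d : Om) : Dense (Before z x d) :=
  (Rat.denseRange_cast (𝕜 := ℝ)).mono subset_union_left

theorem before_mono {z x : Om → ℝ} {d d' : Om} (h : d ≤ d') : Before z x d ⊆ Before z x d' := by
  rintro y (hy | ⟨b, hb, hy⟩)
  · exact Or.inl hy
  · exact Or.inr ⟨b, hb.trans_le h, hy⟩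

/-- the whole set -/
def XX (z x : Om → ℝ) : Set ℝ := range ((↑) : ℚ → ℝ) ∪ {y | ∃ b, y = x b ∨ y = z b - x b}

theorem before_subset (z x : Om → ℝ) (d : Om) : Before z x d ⊆ XX z x := by
  rintro y (hy | ⟨b, _, hy⟩)
  · exact Or.inl hy
  · exact Or.inr ⟨b, hy⟩

/-- the open set with code `c` -/
def Op (c : Set (ℚ × ℚ)) : Set ℝ := ⋃ q ∈ c, I q

theorem isOpen_Op (c : Set (ℚ × ℚ)) : IsOpen (Op c) := isOpen_biUnion fun q _ => isOpen_I q

/-- the sequence of the groups selected for the code `c` and the countable set `A` -/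
noncomputable def Gr (c : ℕ → ℕ → Set (ℚ × ℚ)) (A : Set ℝ) : ℕ → Set ℝ :=
  open Classical in
  if h : ∃ p : (ℕ → ℕ) × (ℕ → ℕ), Good (fun n i => Op (c n i)) A p.1 p.2 then
    fun k => St (fun n => Op (c n (h.choose.1 n))) (h.choose.2 k) (h.choose.2 (k + 1))
  else fun _ => ∅

theorem isOpen_Gr (c : ℕ → ℕ → Set (ℚ × ℚ)) (A : Set ℝ) (k : ℕ) : IsOpen (Gr c A k) := by
  unfold Gr
  split_ifs with h
  · exact isOpen_St (fun n => isOpen_Op _) _ _
  · exact isOpen_empty

theorem exists_Gr {c : ℕ → ℕ → Set (ℚ × ℚ)} {A : Set ℝ}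
    (h : ∃ f b, Good (fun n i => Op (c n i)) A f b) :
    ∃ f b, Good (fun n i => Op (c n i)) A f b ∧
      Gr c A = fun k => St (fun n => Op (c n (f n))) (b k) (b (k + 1)) := by
  have h' : ∃ p : (ℕ → ℕ) × (ℕ → ℕ), Good (fun n i => Op (c n i)) A p.1 p.2 := by
    obtain ⟨f, b, h⟩ := h
    exact ⟨(f, b), h⟩
  refine ⟨h'.choose.1, h'.choose.2, h'.choose_spec, ?_⟩
  unfold Gr
  rw [dif_pos h']

/-- the open set of the requirement with parameters `V`, `F`, `m`, `t` -/
def Rq (z x : Om → ℝ) (V : ℕ → Set ℝ) (F : Set Om) (m : ℕ) (t : ℝ) : Set ℝ :=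
  ⋃ k, ⋃ _ : m ≤ k ∧ ∀ b ∈ F, x b ∈ V k ∧ z b - x b ∈ V k, (V k ∩ {y | t - y ∈ V k})

theorem mem_Rq {z x : Om → ℝ} {V : ℕ → Set ℝ} {F : Set Om} {m : ℕ} {t y : ℝ} :
    y ∈ Rq z x V F m t ↔ ∃ k ≥ m, (∀ b ∈ F, x b ∈ V k ∧ z b - x b ∈ V k) ∧ y ∈ V k ∧ t - y ∈ V k := by
  simp only [Rq, mem_iUnion, exists_prop, mem_inter_iff, mem_ofPred_eq, and_assoc, ge_iff_le]

theorem isOpen_Rq (z x : Om → ℝ) {V : ℕ → Set ℝ} (hV : ∀ k, IsOpen (V k)) (F : Set Om) (m : ℕ)
    (t : ℝ) : IsOpen (Rq z x V F m t) :=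
  isOpen_iUnion fun k => isOpen_iUnion fun _ =>
    (hV k).inter ((hV k).preimage (continuous_const.sub continuous_id))

/-- the requirement at stage `a` -/
def Req (c : Om → ℕ → ℕ → Set (ℚ × ℚ)) (z : Om → ℝ) (a : Om) (x : Om → ℝ) (y : ℝ) : Prop :=
  ∀ g < a, ∀ d ≤ a, ∀ F : Finset Om, (∀ b ∈ F, b < a) → ∀ m : ℕ,
    Dense (Rq z x (Gr (c g) (Before z x d)) F m (z a)) →
      y ∈ Rq z x (Gr (c g) (Before z x d)) F m (z a)

theorem rq_congr {z x x' : Om → ℝ} {V : ℕ → Set ℝ} {F : Set Om} {m : ℕ} {t : ℝ}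
    (h : ∀ b ∈ F, x b = x' b) : Rq z x V F m t = Rq z x' V F m t := by
  ext y
  rw [mem_Rq, mem_Rq]
  refine exists_congr fun k => and_congr_right fun _ => and_congr_left fun _ => ?_
  refine forall_congr' fun b => forall_congr' fun hb => ?_
  rw [h b hb]

theorem req_loc (c : Om → ℕ → ℕ → Set (ℚ × ℚ)) (z : Om → ℝ) (a : Om) (x x' : Om → ℝ) (y : ℝ)
    (h : ∀ b < a, x b = x' b) (hR : Req c z a x y) : Req c z a x' y := by
  intro g hg d hd F hF m hD
  have h1 : Before z x' d = Before z x d := (before_congr fun b hb => h b (hb.trans_le hd)).symm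
  have h2 : ∀ V t, Rq z x' V (F : Set Om) m t = Rq z x V F m t :=
    fun V t => (rq_congr fun b hb => h b (hF b hb)).symm
  rw [h1, h2] at hD ⊢
  exact hR g hg d hd F hF m hD

theorem req_ex (c : Om → ℕ → ℕ → Set (ℚ × ℚ)) (z : Om → ℝ) (a : Om) (x : Om → ℝ) :
    ∃ y, Req c z a x y := by
  have hc1 := countable_Iio a
  have hc2 : Countable {d : Om // d ≤ a} := by
    have : (Set.Iic a).Countable := by
      rw [← Set.Iio_insert]
      exact Set.Countable.insert _ (Set.countable_coe_iff.1 hc1)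
    exact this.to_subtype
  let J := {g : Om // g < a} × {d : Om // d ≤ a} × Finset {b : Om // b < a} × ℕ
  let S : J → Set ℝ := fun j =>
    Rq z x (Gr (c j.1.1) (Before z x j.2.1.1)) ((fun b : {b : Om // b < a} => b.1) '' j.2.2.1) j.2.2.2 (z a)
  let S' : J → Set ℝ := fun j => {y | Dense (S j) → y ∈ S j}
  have hS : ∀ j, IsOpen (S j) := fun j => isOpen_Rq _ _ (isOpen_Gr _ _) _ _ _
  have hS1 : ∀ j, IsOpen (S' j) := by
    intro j
    by_cases h : Dense (S j)
    · have : S' j = S j := by ext y; simp [S', h]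
      rw [this]; exact hS j
    · have : S' j = univ := by ext y; simp [S', h]
      rw [this]; exact isOpen_univ
  have hS2 : ∀ j, Dense (S' j) := by
    intro j
    by_cases h : Dense (S j)
    · have : S' j = S j := by ext y; simp [S', h]
      rw [this]; exact h
    · have : S' j = univ := by ext y; simp [S', h]
      rw [this]; exact dense_univ
  have : Countable J := by infer_instance
  obtain ⟨y, hy⟩ := (dense_iInter_of_isOpen hS1 hS2).nonempty
  refine ⟨y, fun g hg d hd F hF m hD => ?_⟩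
  classical
  have h1 := mem_iInter.1 hy (⟨g, hg⟩, ⟨d, hd⟩, F.subtype (fun b => b < a), m)
  have h2 : ((fun b : {b : Om // b < a} => b.1) '' (F.subtype (fun b => b < a) : Finset _)) =
      (F : Set Om) := by
    ext b
    constructor
    · rintro ⟨b', hb', rfl⟩
      exact Finset.mem_subtype.1 hb'
    · intro hb
      exact ⟨⟨b, hF b hb⟩, Finset.mem_subtype.2 hb, rfl⟩
  simp only [S', S, mem_ofPred_eq] at h1
  rw [h2] at h1
  exact h1 hD

theorem exists_seq (c : Om → ℕ → ℕ → Set (ℚ × ℚ)) (z : Om → ℝ) :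
    ∃ x : Om → ℝ, ∀ a, Req c z a x (x a) :=
  exists_rec (Req c z) (req_loc c z) (req_ex c z)

end Pool.Agent.W634.RG
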